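import Mathlib
import Pool.Agent.X199.PsiMad

/-!
# Two sequential spaces whose product is a `k_R`-space and not a `k`-space
-/

set_option autoImplicit false

open Set Topology Filter TopologicalSpace

namespace Pool.Agent.Results.MP_a29c66_gt.ProductKRNotK

open Pool.Agent.X199.PM

/-- `k`-spaces: a set is closed when its trace on every compact subspace is closed there. -/
def KSpace (Z : Type*) [TopologicalSpace Z] : Prop :=
  ∀ F : Set Z, (∀ K : Set Z, IsCompact K → IsClosed ((fun z : K => (z : Z)) ⁻¹' F)) → IsClosed F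

/-- `k_R`-spaces: Tychonoff spaces on which every real function with continuous restrictions to
compact subspaces is continuous. -/
def KRSpace (Z : Type*) [TopologicalSpace Z] : Prop :=
  T35Space Z ∧ ∀ f : Z → ℝ, (∀ K : Set Z, IsCompact K → ContinuousOn f K) → Continuous f

/-! ### The fan -/

/-- The sequential fan. -/
structure Fan : Type where
  val : Option (ℕ × ℕ)

namespace Fan

/-- isolated points. -/
def iso (i j : ℕ) : Fan := ⟨some (i, j)⟩

/-- the vertex. -/
def top : Fan := ⟨none⟩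

theorem cases' (y : Fan) : y = top ∨ ∃ i j, y = iso i j := by
  obtain ⟨_ | ⟨i, j⟩⟩ := y
  · exact Or.inl rfl
  · exact Or.inr ⟨i, j, rfl⟩

theorem top_ne (i j : ℕ) : top ≠ iso i j := by
  intro h
  have := congrArg Fan.val h
  simp [top, iso] at this

theorem iso_inj {i j k l : ℕ} (h : iso i j = iso k l) : i = k ∧ j = l := by
  have := congrArg Fan.val h
  simpa [iso] using this

instance : TopologicalSpace Fan where
  IsOpen U := top ∈ U → ∀ i, ∀ᶠ j in atTop, iso i j ∈ U
  isOpen_univ := fun _ _ => Eventually.of_forall fun _ => mem_univ _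
  isOpen_inter := fun _ _ hU hV h i => (hU h.1 i).and (hV h.2 i)
  isOpen_sUnion := by
    rintro S hS ⟨U, hU, ha⟩ i
    filter_upwards [hS U hU ha i] with j hj
    exact ⟨U, hU, hj⟩

theorem isOpen_iff {U : Set Fan} : IsOpen U ↔ (top ∈ U → ∀ i, ∀ᶠ j in atTop, iso i j ∈ U) :=
  Iff.rfl

theorem isOpen_iso (i j : ℕ) : IsOpen ({iso i j} : Set Fan) := by
  rw [isOpen_iff]
  intro h
  exact absurd h (top_ne i j)

theorem isClosed_iso (i j : ℕ) : IsClosed ({iso i j} : Set Fan) := by
  rw [← isOpen_compl_iff, isOpen_iff]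
  intro _ k
  filter_upwards [eventually_gt_atTop j] with l hl h
  exact absurd (iso_inj h).2 (by omega)

/-- basic neighbourhoods of the vertex. -/
def nb (g : ℕ → ℕ) : Set Fan := {y | y = top ∨ ∃ i j, g i ≤ j ∧ y = iso i j}

theorem iso_mem_nb {g : ℕ → ℕ} {i j : ℕ} : iso i j ∈ nb g ↔ g i ≤ j := by
  constructor
  · rintro (h | ⟨k, l, hkl, h⟩)
    · exact absurd h.symm (top_ne i j)
    · obtain ⟨rfl, rfl⟩ := iso_inj h
      exact hkl
  · intro h
    exact Or.inr ⟨i, j, h, rfl⟩

theorem isClopen_nb (g : ℕ → ℕ) : IsClopen (nb g) := by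
  constructor
  · rw [← isOpen_compl_iff, isOpen_iff]
    intro h
    exact absurd (Or.inl rfl) h
  · rw [isOpen_iff]
    intro _ i
    filter_upwards [eventually_ge_atTop (g i)] with j hj
    exact iso_mem_nb.2 hj

theorem exists_nb {U : Set Fan} (hU : IsOpen U) (h : top ∈ U) : ∃ g, nb g ⊆ U := by
  have h1 : ∀ i, ∃ m, ∀ j ≥ m, iso i j ∈ U := fun i => eventually_atTop.1 (hU h i)
  choose g hg using h1
  refine ⟨g, ?_⟩
  rintro y (rfl | ⟨i, j, hij, rfl⟩)
  · exact h
  · exact hg i j hij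

instance : T1Space Fan := by
  refine ⟨fun y => ?_⟩
  rcases cases' y with rfl | ⟨i, j, rfl⟩
  · rw [← isOpen_compl_iff, isOpen_iff]
    intro h
    exact absurd rfl h
  · exact isClosed_iso i j

instance : T35Space Fan := by
  have : CompletelyRegularSpace Fan := by
    refine CompletelyRegularSpace.of_isTopologicalBasis_clopens ?_
    refine isTopologicalBasis_of_isOpen_of_nhds (fun u hu => hu.isOpen) ?_
    intro y U hy hU
    rcases cases' y with rfl | ⟨i, j, rfl⟩
    · obtain ⟨g, hg⟩ := exists_nb hU hy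
      exact ⟨nb g, isClopen_nb g, Or.inl rfl, hg⟩
    · exact ⟨{iso i j}, ⟨isClosed_iso i j, isOpen_iso i j⟩, rfl, by simpa using hy⟩
  exact {}

theorem tendsto_top (i : ℕ) {u : ℕ → ℕ} (hu : Tendsto u atTop atTop) :
    Tendsto (fun n => iso i (u n)) atTop (𝓝 top) := by
  rw [tendsto_nhds]
  intro U hU h
  exact hu (hU h i)

instance : SequentialSpace Fan := by
  refine ⟨fun S hS => ?_⟩
  rw [← isOpen_compl_iff, isOpen_iff]
  intro hT i
  by_contra hcon
  have h1 : ∃ᶠ j in atTop, iso i j ∈ S := by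
    intro h
    refine hcon ?_
    filter_upwards [h] with j hj
    exact hj
  obtain ⟨φ, hφ, hφ2⟩ := extraction_of_frequently_atTop h1
  exact hT (hS hφ2 (tendsto_top i hφ.tendsto_atTop))

/-- A set with finitely many points on each spine is closed. -/
theorem isClosed_of {T : Set Fan} (h : ∀ i, {j | iso i j ∈ T}.Finite) :
    IsClosed T := by
  rw [← isOpen_compl_iff, isOpen_iff]
  intro _ i
  have := (h i).compl_mem_cofinite
  rw [Nat.cofinite_eq_atTop] at this
  exact this

end Fan

/-- A subset of a compact set all whose subsets are closed is finite. -/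
theorem finite_of_compact {Z : Type*} [TopologicalSpace Z] {K S : Set Z} (hK : IsCompact K)
    (hS : S ⊆ K) (h : ∀ T ⊆ S, IsClosed T) : S.Finite := by
  have h1 : IsCompact S := hK.of_isClosed_subset (h S Subset.rfl) hS
  refine h1.finite ⟨discreteTopology_iff_forall_isOpen.2 ?_⟩
  intro T
  rw [← isClosed_compl_iff]
  have h2 : (Tᶜ : Set S) = (fun z : S => (z : Z)) ⁻¹' ((fun z : S => (z : Z)) '' Tᶜ) := by
    rw [preimage_image_eq _ Subtype.val_injective]
  rw [h2]
  refine (h _ ?_).preimage continuous_subtype_val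
  rintro _ ⟨z, -, rfl⟩
  exact z.2

theorem fan_compact {L : Set Fan} (hL : IsCompact L) : {i | ∃ j, Fan.iso i j ∈ L}.Finite := by
  classical
  have hch : ∀ i : {i | ∃ j, Fan.iso i j ∈ L}, ∃ j, Fan.iso i.1 j ∈ L := fun i => i.2
  choose c hc using hch
  have hfin : (range fun i : {i | ∃ j, Fan.iso i j ∈ L} => Fan.iso i.1 (c i)).Finite := by
    refine finite_of_compact hL ?_ ?_
    · rintro _ ⟨i, rfl⟩
      exact hc i
    · intro T hT
      refine Fan.isClosed_of ?_
      · intro i
        by_cases hi : ∃ j, Fan.iso i j ∈ L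
        · refine (finite_singleton (c ⟨i, hi⟩)).subset ?_
          intro j hj
          obtain ⟨k, hk⟩ := hT hj
          obtain ⟨h1, h2⟩ := Fan.iso_inj hk
          have h3 : k = ⟨i, hi⟩ := Subtype.ext h1
          rw [h3] at h2
          exact h2.symm
        · refine finite_empty.subset ?_
          intro j hj
          obtain ⟨k, hk⟩ := hT hj
          obtain ⟨h1, -⟩ := Fan.iso_inj hk
          rw [← h1] at hi
          exact hi k.2
  have hinj : Function.Injective fun i : {i | ∃ j, Fan.iso i j ∈ L} => Fan.iso i.1 (c i) := by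
    intro i k hik
    exact Subtype.ext (Fan.iso_inj hik).1
  have h2 : Finite {i | ∃ j, Fan.iso i j ∈ L} := by
    have := hfin.to_subtype
    exact Finite.of_injective (fun i => (⟨Fan.iso i.1 (c i), ⟨i, rfl⟩⟩ :
      range fun i : {i | ∃ j, Fan.iso i j ∈ L} => Fan.iso i.1 (c i))) fun i k hik =>
        hinj (congrArg Subtype.val hik)
  exact toFinite _

/-! ### The telescope of copies of a Mrowka-Isbell space -/

/-- Countably many copies of a space converging to a point. -/
structure Tel (P : Type) : Type where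
  val : Option (ℕ × P)

namespace Tel

variable {P : Type} [TopologicalSpace P]

/-- points of the copies. -/
def pt (n : ℕ) (p : P) : Tel P := ⟨some (n, p)⟩

/-- the limit point. -/
def lim : Tel P := ⟨none⟩

omit [TopologicalSpace P] in
theorem cases' (x : Tel P) : x = lim ∨ ∃ n p, x = pt n p := by
  obtain ⟨_ | ⟨i, j⟩⟩ := x
  · exact Or.inl rfl
  · exact Or.inr ⟨i, j, rfl⟩

omit [TopologicalSpace P] in
theorem lim_ne (n : ℕ) (p : P) : lim ≠ pt n p := by
  intro h
  have := congrArg Tel.val h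
  simp [lim, pt] at this

omit [TopologicalSpace P] in
theorem pt_inj {m n : ℕ} {p q : P} (h : pt m p = pt n q) : m = n ∧ p = q := by
  have := congrArg Tel.val h
  simpa [pt] using this

instance : TopologicalSpace (Tel P) where
  IsOpen U := (∀ n, IsOpen {p | pt n p ∈ U}) ∧ (lim ∈ U → ∀ᶠ n in atTop, ∀ p, pt n p ∈ U)
  isOpen_univ := by
    refine ⟨fun n => ?_, fun _ => Eventually.of_forall fun n p => mem_univ _⟩
    simp
  isOpen_inter := by
    intro U V hU hV
    refine ⟨fun n => (hU.1 n).inter (hV.1 n), fun h => ?_⟩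
    filter_upwards [hU.2 h.1, hV.2 h.2] with n h1 h2 p
    exact ⟨h1 p, h2 p⟩
  isOpen_sUnion := by
    intro S hS
    refine ⟨fun n => ?_, ?_⟩
    · have : {p | pt n p ∈ ⋃₀ S} = ⋃ U ∈ S, {p | pt n p ∈ U} := by
        ext p
        simp
      rw [this]
      exact isOpen_biUnion fun U hU => (hS U hU).1 n
    · rintro ⟨U, hU, h⟩
      filter_upwards [(hS U hU).2 h] with n hn p
      exact ⟨U, hU, hn p⟩

theorem isOpen_iff {U : Set (Tel P)} : IsOpen U ↔
    (∀ n, IsOpen {p | pt n p ∈ U}) ∧ (lim ∈ U → ∀ᶠ n in atTop, ∀ p, pt n p ∈ U) := Iff.rfl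

theorem continuous_pt (n : ℕ) : Continuous (pt n : P → Tel P) :=
  ⟨fun _ hU => hU.1 n⟩

theorem tendsto_lim {u : ℕ → ℕ} (hu : Tendsto u atTop atTop) (p : ℕ → P) :
    Tendsto (fun k => pt (u k) (p k)) atTop (𝓝 lim) := by
  rw [tendsto_nhds]
  intro U hU h
  filter_upwards [hu (hU.2 h)] with k hk
  exact hk (p k)

/-- the copy of a set. -/
def cp (n : ℕ) (V : Set P) : Set (Tel P) := pt n '' V

omit [TopologicalSpace P] in
theorem pt_mem_cp {m n : ℕ} {V : Set P} {p : P} : pt m p ∈ cp n V ↔ m = n ∧ p ∈ V := by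
  constructor
  · rintro ⟨q, hq, h⟩
    obtain ⟨rfl, rfl⟩ := pt_inj h
    exact ⟨rfl, hq⟩
  · rintro ⟨rfl, h⟩
    exact ⟨p, h, rfl⟩

omit [TopologicalSpace P] in
theorem lim_notMem_cp {n : ℕ} {V : Set P} : (lim : Tel P) ∉ cp n V := by
  rintro ⟨q, -, h⟩
  exact lim_ne n q h.symm

theorem isOpen_cp (n : ℕ) {V : Set P} (hV : IsOpen V) : IsOpen (cp n V) := by
  refine ⟨fun m => ?_, fun h => absurd h lim_notMem_cp⟩
  by_cases h : m = n
  · have : {p | pt m p ∈ cp n V} = V := by
      ext p
      simp [pt_mem_cp, h]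
    rw [this]
    exact hV
  · have : {p | pt m p ∈ cp n V} = ∅ := by
      ext p
      simp [pt_mem_cp, h]
    rw [this]
    exact isOpen_empty

theorem isClosed_cp (n : ℕ) {V : Set P} (hV : IsClosed V) : IsClosed (cp n V) := by
  rw [← isOpen_compl_iff]
  refine ⟨fun m => ?_, fun _ => ?_⟩
  · by_cases h : m = n
    · have : {p | pt m p ∈ (cp n V)ᶜ} = Vᶜ := by
        ext p
        simp [pt_mem_cp, h]
      rw [this]
      exact hV.isOpen_compl
    · have : {p | pt m p ∈ (cp n V)ᶜ} = univ := by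
        ext p
        simp [pt_mem_cp, h]
      rw [this]
      exact isOpen_univ
  · filter_upwards [eventually_gt_atTop n] with m hm p h
    exact absurd (pt_mem_cp.1 h).1 (by omega)

/-- neighbourhoods of the limit point. -/
def nb (m : ℕ) : Set (Tel P) := {x | x = lim ∨ ∃ n p, m ≤ n ∧ x = pt n p}

omit [TopologicalSpace P] in
theorem pt_mem_nb {m n : ℕ} {p : P} : pt n p ∈ nb m ↔ m ≤ n := by
  constructor
  · rintro (h | ⟨k, q, hk, h⟩)
    · exact absurd h.symm (lim_ne n p)
    · obtain ⟨rfl, -⟩ := pt_inj h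
      exact hk
  · intro h
    exact Or.inr ⟨n, p, h, rfl⟩

theorem isClopen_nb (m : ℕ) : IsClopen (nb m : Set (Tel P)) := by
  constructor
  · rw [← isOpen_compl_iff]
    refine ⟨fun n => ?_, fun h => absurd (Or.inl rfl) h⟩
    simp only [mem_compl_iff, pt_mem_nb]
    exact isOpen_const
  · refine ⟨fun n => ?_, fun _ => ?_⟩
    · simp only [pt_mem_nb]
      exact isOpen_const
    · filter_upwards [eventually_ge_atTop m] with n hn p
      exact pt_mem_nb.2 hn

theorem t35 [T1Space P] (hP : IsTopologicalBasis {s : Set P | IsClopen s}) : T35Space (Tel P) := by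
  have h1 : T1Space (Tel P) := by
    refine ⟨fun x => ?_⟩
    rcases cases' x with rfl | ⟨n, p, rfl⟩
    · rw [← isOpen_compl_iff]
      refine ⟨fun n => ?_, fun h => absurd rfl h⟩
      have : {p : P | pt n p ∈ ({lim} : Set (Tel P))ᶜ} = univ := by
        ext p
        simp [(lim_ne n p).symm]
      rw [this]
      exact isOpen_univ
    · have : ({pt n p} : Set (Tel P)) = cp n {p} := by simp [cp]
      rw [this]
      exact isClosed_cp n isClosed_singleton
  have : CompletelyRegularSpace (Tel P) := by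
    refine CompletelyRegularSpace.of_isTopologicalBasis_clopens ?_
    refine isTopologicalBasis_of_isOpen_of_nhds (fun u hu => hu.isOpen) ?_
    intro x U hx hU
    rcases cases' x with rfl | ⟨n, p, rfl⟩
    · obtain ⟨m, hm⟩ := eventually_atTop.1 (hU.2 hx)
      refine ⟨nb m, isClopen_nb m, Or.inl rfl, ?_⟩
      rintro y (rfl | ⟨n, p, hn, rfl⟩)
      · exact hx
      · exact hm n hn p
    · obtain ⟨V, hV, hpV, hVU⟩ := hP.exists_subset_of_mem_open (show p ∈ {p | pt n p ∈ U} from hx)
        (hU.1 n)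
      refine ⟨cp n V, ⟨isClosed_cp n hV.1, isOpen_cp n hV.2⟩, ⟨p, hpV, rfl⟩, ?_⟩
      rintro _ ⟨q, hq, rfl⟩
      exact hVU hq
  exact {}

theorem sequential [SequentialSpace P] : SequentialSpace (Tel P) := by
  refine ⟨fun S hS => ?_⟩
  rw [← isOpen_compl_iff]
  refine ⟨fun n => ?_, fun hl => ?_⟩
  · have h1 : IsSeqClosed {p | pt n p ∈ S} := by
      intro u p hu hup
      exact hS hu (((continuous_pt n).tendsto p).comp hup)
    exact h1.isClosed.isOpen_compl
  · by_contra hcon
    have h1 : ∃ᶠ n in atTop, ∃ p, pt n p ∈ S := by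
      intro h
      refine hcon ?_
      filter_upwards [h] with n hn p hp
      exact hn ⟨p, hp⟩
    obtain ⟨φ, hφ, hφ2⟩ := extraction_of_frequently_atTop h1
    choose p hp using hφ2
    exact hl (hS hp (tendsto_lim hφ.tendsto_atTop p))

end Tel

theorem psi_sequential (𝒜 : Set (Set ℕ)) : SequentialSpace (Psi 𝒜) := by
  refine ⟨fun S hS => ?_⟩
  rw [← isOpen_compl_iff]
  intro a ha
  by_contra hcon
  have hinf : {d | d ∈ a.1 ∧ Psi.iso 𝒜 d ∈ S}.Infinite := by
    intro h
    refine hcon (h.subset ?_)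
    rintro d ⟨h1, h2⟩
    exact ⟨h1, not_not.1 h2⟩
  have h1 : ∃ᶠ d in atTop, d ∈ a.1 ∧ Psi.iso 𝒜 d ∈ S := Nat.frequently_atTop_iff_infinite.2 hinf
  obtain ⟨φ, hφ, hφ2⟩ := extraction_of_frequently_atTop h1
  exact ha (hS (fun n => (hφ2 n).2) (Psi.tendsto_pt a φ hφ.injective fun n => (hφ2 n).1))

/-- Every sequence of isolated points of the telescope has a convergent subsequence. -/
theorem exists_subseq {𝒜 : Set (Set ℕ)} (hm : IsMAD 𝒜) (u d : ℕ → ℕ) :
    ∃ (x : Tel (Psi 𝒜)) (φ : ℕ → ℕ), StrictMono φ ∧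
      Tendsto (fun k => Tel.pt (u (φ k)) (Psi.iso 𝒜 (d (φ k)))) atTop (𝓝 x) := by
  by_cases h1 : ∀ N, ∃ᶠ k in atTop, N ≤ u k
  · obtain ⟨φ, hφ, hφ2⟩ := extraction_forall_of_frequently h1
    exact ⟨Tel.lim, φ, hφ, Tel.tendsto_lim (tendsto_atTop_mono hφ2 tendsto_id) _⟩
  · push Not at h1
    obtain ⟨N, hN⟩ := h1
    have h2 : ∀ᶠ k in atTop, u k ∈ Finset.range N := by
      filter_upwards [hN] with k hk
      exact Finset.mem_range.2 hk
    have h3 : ∃ n, ∃ᶠ k in atTop, u k = n := by
      by_contra hcon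
      push Not at hcon
      have h4 : ∀ᶠ k in atTop, ∀ n ∈ Finset.range N, u k ≠ n :=
        (Filter.eventually_all_finset _).2 fun n _ => hcon n
      obtain ⟨k, hk1, hk2⟩ := (h2.and h4).exists
      exact hk2 _ hk1 rfl
    obtain ⟨n, hn⟩ := h3
    obtain ⟨φ, hφ, hφ2⟩ := extraction_of_frequently_atTop hn
    by_cases h5 : (range fun k => d (φ k)).Finite
    · have h6 : ∃ e, ∃ᶠ k in atTop, d (φ k) = e := by
        by_contra hcon
        push Not at hcon
        have h7 : ∀ᶠ k in atTop, ∀ e ∈ h5.toFinset, d (φ k) ≠ e :=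
          (Filter.eventually_all_finset _).2 fun e _ => hcon e
        obtain ⟨k, hk⟩ := h7.exists
        exact hk _ (by simp) rfl
      obtain ⟨e, he⟩ := h6
      obtain ⟨ψ, hψ, hψ2⟩ := extraction_of_frequently_atTop he
      refine ⟨Tel.pt n (Psi.iso 𝒜 e), φ ∘ ψ, hφ.comp hψ, ?_⟩
      simp only [Function.comp_apply, hφ2, hψ2]
      exact tendsto_const_nhds
    · obtain ⟨a, ha, hainf⟩ := hm.max _ h5
      have h8 : ∀ N : ℕ, ∃ᶠ k in atTop, d (φ k) ∈ a ∧ N ≤ d (φ k) := by
        intro N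
        rw [Nat.frequently_atTop_iff_infinite]
        intro hfin
        have h9 : (a ∩ range fun k => d (φ k)) ⊆
            ((fun k => d (φ k)) '' {k | d (φ k) ∈ a ∧ N ≤ d (φ k)}) ∪ Iio N := by
          rintro _ ⟨hx, ⟨k, rfl⟩⟩
          by_cases hk : N ≤ d (φ k)
          · exact Or.inl ⟨k, ⟨hx, hk⟩, rfl⟩
          · exact Or.inr (not_le.1 hk)
        exact hainf (((hfin.image _).union (finite_lt_nat N)).subset h9)
      obtain ⟨ψ, hψ, hψ2⟩ := extraction_forall_of_frequently h8
      refine ⟨Tel.pt n (Psi.pt ⟨a, ha⟩), φ ∘ ψ, hφ.comp hψ, ?_⟩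
      simp only [Function.comp_apply, hφ2]
      refine ((Tel.continuous_pt n).tendsto _).comp ?_
      rw [tendsto_nhds]
      intro U hU haU
      have h10 := hU _ haU
      obtain ⟨B, hB⟩ := h10.bddAbove
      filter_upwards [eventually_gt_atTop B] with k hk
      by_contra hcon
      have := hB ⟨(hψ2 k).1, hcon⟩
      have h11 := (hψ2 k).2
      omega

theorem dense_iso {𝒜 : Set (Set ℕ)} (hA : IsAD 𝒜) {U : Set (Tel (Psi 𝒜))} (hU : IsOpen U)
    (hne : U.Nonempty) : ∃ n d, Tel.pt n (Psi.iso 𝒜 d) ∈ U := by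
  obtain ⟨x, hx⟩ := hne
  have key : ∀ n, ∀ p : Psi 𝒜, Tel.pt n p ∈ U → ∃ n d, Tel.pt n (Psi.iso 𝒜 d) ∈ U := by
    intro n p hp
    rcases Psi.cases' p with ⟨d, rfl⟩ | ⟨a, rfl⟩
    · exact ⟨n, d, hp⟩
    · have h1 := hU.1 n a hp
      obtain ⟨d, hd1, hd2⟩ := ((hA.inf a.1 a.2).sdiff h1).nonempty
      refine ⟨n, d, ?_⟩
      by_contra hcon
      exact hd2 ⟨hd1, hcon⟩
  rcases Tel.cases' x with rfl | ⟨n, p, rfl⟩
  · obtain ⟨n, hn⟩ := (hU.2 hx).exists
    exact key n (Psi.iso 𝒜 0) (hn _)
  · exact key n p hx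

/-- Sequentially continuous real functions on the product are continuous. -/
theorem continuous_of_seq {𝒜 : Set (Set ℕ)} (hm : IsMAD 𝒜) (f : Tel (Psi 𝒜) × Fan → ℝ)
    (hf : ∀ (z : ℕ → Tel (Psi 𝒜) × Fan) (w : Tel (Psi 𝒜) × Fan), Tendsto z atTop (𝓝 w) →
      Tendsto (fun n => f (z n)) atTop (𝓝 (f w))) : Continuous f := by
  have hseqP : SequentialSpace (Psi 𝒜) := psi_sequential 𝒜
  have hseq : SequentialSpace (Tel (Psi 𝒜)) := Tel.sequential
  have hcx : ∀ y, Continuous fun x => f (x, y) := by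
    intro y
    refine SeqContinuous.continuous ?_
    intro z w hz
    exact hf _ _ (hz.prodMk_nhds tendsto_const_nhds)
  have hunif : ∀ ε > (0 : ℝ), ∀ i, ∃ m, ∀ j ≥ m, ∀ x,
      |f (x, Fan.iso i j) - f (x, Fan.top)| ≤ ε := by
    intro ε hε i
    by_contra hcon
    push Not at hcon
    have h1 : ∀ m, ∃ j ≥ m, ∃ n d, ε < |f (Tel.pt n (Psi.iso 𝒜 d), Fan.iso i j) -
        f (Tel.pt n (Psi.iso 𝒜 d), Fan.top)| := by
      intro m
      obtain ⟨j, hj, x, hx⟩ := hcon m
      have hop : IsOpen {x | ε < |f (x, Fan.iso i j) - f (x, Fan.top)|} :=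
        isOpen_lt continuous_const ((hcx _).sub (hcx _)).abs
      obtain ⟨n, d, h⟩ := dense_iso hm.toIsAD hop ⟨x, hx⟩
      exact ⟨j, hj, n, d, h⟩
    choose j hj n d hnd using h1
    obtain ⟨x, φ, hφ, hx⟩ := exists_subseq hm n d
    have hjt : Tendsto (fun k => j (φ k)) atTop atTop :=
      tendsto_atTop_mono (fun k => (hφ.id_le k).trans (hj (φ k))) tendsto_id
    have h2 := hf _ _ (hx.prodMk_nhds (Fan.tendsto_top i hjt))
    have h3 := ((hcx Fan.top).tendsto x).comp hx
    have h4 := (h2.sub h3).abs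
    simp only [sub_self, abs_zero] at h4
    obtain ⟨k, hk⟩ := (h4.eventually (gt_mem_nhds hε)).exists
    have h5 := hnd (φ k)
    simp only [Function.comp_apply] at hk
    exact absurd hk (not_lt.2 h5.le)
  rw [continuous_iff_continuousAt]
  rintro ⟨x, y⟩
  rcases Fan.cases' y with rfl | ⟨i, j, rfl⟩
  · rw [Metric.continuousAt_iff'] 
    intro ε hε
    have h1 : ∀ᶠ x' in 𝓝 x, dist (f (x', Fan.top)) (f (x, Fan.top)) < ε / 2 :=
      (Metric.continuousAt_iff'.1 (hcx Fan.top).continuousAt) (ε / 2) (by positivity)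
    choose g hg using hunif (ε / 4) (by positivity)
    have h2 : ∀ᶠ y' in 𝓝 Fan.top, y' ∈ Fan.nb g := (Fan.isClopen_nb g).2.mem_nhds (Or.inl rfl)
    have h3 := h1.prod_mk h2
    rw [← nhds_prod_eq] at h3
    filter_upwards [h3] with z hz
    obtain ⟨x', y'⟩ := z
    obtain ⟨hz1, hz2⟩ := hz
    simp only at hz1 hz2
    have h4 : |f (x', y') - f (x', Fan.top)| ≤ ε / 4 := by
      rcases hz2 with rfl | ⟨i, j, hij, rfl⟩
      · simp only [sub_self, abs_zero]
        positivity
      · exact hg i j hij x'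
    rw [Real.dist_eq] at hz1 ⊢
    calc |f (x', y') - f (x, Fan.top)|
        ≤ |f (x', y') - f (x', Fan.top)| + |f (x', Fan.top) - f (x, Fan.top)| := by
          exact abs_sub_le _ _ _
      _ < ε := by linarith
  · have h1 : 𝓝 (Fan.iso i j) = pure (Fan.iso i j) :=
      (isOpen_singleton_iff_nhds_eq_pure _).1 (Fan.isOpen_iso i j)
    rw [ContinuousAt, nhds_prod_eq, h1, Filter.prod_pure, tendsto_map'_iff]
    exact (hcx _).tendsto x

/-- the columns. -/
def col (i : ℕ) : Set ℕ := range fun k => Nat.pair i k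

theorem col_infinite (i : ℕ) : (col i).Infinite := by
  refine infinite_range_of_injective ?_
  intro k l h
  exact (Nat.pair_eq_pair.1 h).2

theorem col_inter {i j : ℕ} (h : i ≠ j) : col i ∩ col j = ∅ := by
  ext n
  simp only [mem_inter_iff, mem_empty_iff_false, iff_false, not_and]
  rintro ⟨k, rfl⟩ ⟨l, hl⟩
  exact h (Nat.pair_eq_pair.1 hl).1.symm

/-- There are sequential spaces `X` and `Y` such that `X × Y` is a `k_R`-space that is not a
`k`-space. -/
theorem result : ∃ (X Y : Type) (_ : TopologicalSpace X) (_ : TopologicalSpace Y),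
    SequentialSpace X ∧ SequentialSpace Y ∧ KRSpace (X × Y) ∧ ¬ KSpace (X × Y) := by
  obtain ⟨𝒜, hcol, hm⟩ := exists_mad (range col) ⟨by
    rintro _ ⟨f, rfl⟩
    exact col_infinite f, by
    rintro _ ⟨f, rfl⟩ _ ⟨g, rfl⟩ hne
    have hfg : f ≠ g := fun h => hne (congrArg col h)
    rw [col_inter hfg]
    exact finite_empty⟩
  have hP : IsTopologicalBasis {s : Set (Psi 𝒜) | IsClopen s} := by
    refine isTopologicalBasis_of_isOpen_of_nhds (fun u hu => hu.isOpen) ?_
    intro x U hx hU
    obtain ⟨V, hV, h1, h2⟩ := Psi.isTopologicalBasis.exists_subset_of_mem_open hx hU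
    exact ⟨V, Psi.basis_clopen hm.toIsAD hV, h1, h2⟩
  have hT1 : T1Space (Psi 𝒜) := Psi.t1 hm.toIsAD
  have hX35 : T35Space (Tel (Psi 𝒜)) := Tel.t35 hP
  have hseqP : SequentialSpace (Psi 𝒜) := psi_sequential 𝒜
  have hseq : SequentialSpace (Tel (Psi 𝒜)) := Tel.sequential
  refine ⟨Tel (Psi 𝒜), Fan, inferInstance, inferInstance, hseq, inferInstance, ⟨inferInstance, ?_⟩,
    ?_⟩
  · intro f hf
    refine continuous_of_seq hm f ?_
    intro z w hz
    have hK : IsCompact (insert w (range z)) := hz.isCompact_insert_range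
    have h1 := hf _ hK w (mem_insert w _)
    refine h1.tendsto.comp (tendsto_nhdsWithin_iff.2 ⟨hz, ?_⟩)
    exact Eventually.of_forall fun n => Or.inr ⟨n, rfl⟩
  · intro hk
    let a : ℕ → 𝒜 := fun j => ⟨col j, hcol ⟨j, rfl⟩⟩
    have hainj : Function.Injective a := by
      intro i j hij
      by_contra hne
      have h1 : col i = col j := congrArg Subtype.val hij
      have h2 := col_inter hne
      rw [h1, inter_self] at h2
      exact (col_infinite j).nonempty.ne_empty h2
    let A : Set (Tel (Psi 𝒜) × Fan) := {z | ∃ i j, z = (Tel.pt i (Psi.pt (a j)), Fan.iso i j)}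
    have hA : IsClosed A := by
      refine hk A fun K hK => ?_
      have hL1 : IsCompact (Prod.fst '' K) := hK.image continuous_fst
      have hL2 : IsCompact (Prod.snd '' K) := hK.image continuous_snd
      have hI := fan_compact hL2
      have hJ : ∀ i, {j | Tel.pt i (Psi.pt (a j)) ∈ Prod.fst '' K}.Finite := by
        intro i
        have h1 : ((fun j => Tel.pt i (Psi.pt (a j))) ''
            {j | Tel.pt i (Psi.pt (a j)) ∈ Prod.fst '' K}).Finite := by
          refine finite_of_compact hL1 ?_ ?_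
          · rintro _ ⟨j, hj, rfl⟩
            exact hj
          · intro T hT
            have h2 : T = Tel.cp i {p | Tel.pt i p ∈ T} := by
              ext x
              constructor
              · intro hx
                obtain ⟨j, -, rfl⟩ := hT hx
                exact ⟨_, hx, rfl⟩
              · rintro ⟨p, hp, rfl⟩
                exact hp
            rw [h2]
            refine Tel.isClosed_cp i ?_
            rw [← isOpen_compl_iff]
            intro b _
            refine finite_empty.subset ?_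
            rintro d ⟨-, hd⟩
            simp only [mem_compl_iff, not_not] at hd
            obtain ⟨j, -, hj⟩ := hT hd
            exact Psi.pt_ne_iso _ _ (Tel.pt_inj hj).2
        refine h1.of_finite_image ?_
        intro j _ j' _ hjj
        exact hainj (Psi.pt_inj (Tel.pt_inj hjj).2)
      have hfin : (K ∩ A).Finite := by
        refine ((hI.biUnion fun i _ => (hJ i).image fun j =>
          ((Tel.pt i (Psi.pt (a j)), Fan.iso i j) : Tel (Psi 𝒜) × Fan))).subset ?_
        rintro _ ⟨hK', i, j, rfl⟩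
        refine mem_biUnion (x := i) ⟨j, ⟨_, hK', rfl⟩⟩ ⟨j, ⟨_, hK', rfl⟩, rfl⟩
      have h3 : (fun z : K => (z : Tel (Psi 𝒜) × Fan)) ⁻¹' A =
          (fun z : K => (z : Tel (Psi 𝒜) × Fan)) ⁻¹' (K ∩ A) := by
        ext z
        exact ⟨fun h => ⟨z.2, h⟩, fun h => h.2⟩
      rw [h3]
      exact hfin.isClosed.preimage continuous_subtype_val
    have hmem : ((Tel.lim, Fan.top) : Tel (Psi 𝒜) × Fan) ∈ closure A := by
      rw [mem_closure_iff_nhds]
      intro t ht
      obtain ⟨U, V, hU, hxU, hV, hyV, hUV⟩ := mem_nhds_prod_iff'.1 ht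
      obtain ⟨n, hn⟩ := (hU.2 hxU).exists
      obtain ⟨j, hj⟩ := (hV hyV n).exists
      exact ⟨(Tel.pt n (Psi.pt (a j)), Fan.iso n j), hUV ⟨hn _, hj⟩, n, j, rfl⟩
    rw [hA.closure_eq] at hmem
    obtain ⟨i, j, hij⟩ := hmem
    exact Fan.top_ne i j (congrArg Prod.snd hij)

end Pool.Agent.Results.MP_a29c66_gt.ProductKRNotK
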